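import Mathlib
import Pool.Agent.H10.Pen

set_option autoImplicit false

namespace Pool.Agent.Results.MP_daa8b9_co.Counter

open Finset Pool.Agent.H10

/-- The other half-edge (dart) of the same edge; edge `e` has the darts `(e, false)`, `(e, true)`. -/
def opp {m : ℕ} (d : Fin m × Bool) : Fin m × Bool := (d.1, !d.2)

/-- The number of classes of the equivalence relation generated by `r`. -/
noncomputable def classes {α : Type} (r : α → α → Prop) : ℕ := Nat.card (Quot r)

/-- The rotation system `σ` (cyclic order of the darts at each vertex) describes a connected plane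
cubic graph with `m` edges: all cycles of `σ` have length three, the map is connected, and
vertices minus edges plus faces equals two. -/
def IsPlaneCubic {m : ℕ} (σ : Equiv.Perm (Fin m × Bool)) : Prop :=
  (∀ d, σ d ≠ d ∧ σ (σ (σ d)) = d) ∧
  classes (fun x y => y = σ x ∨ y = opp x) = 1 ∧
  classes (fun x y => y = σ x) + classes (fun x y => y = σ (opp x)) = m + 2

/-- Medial edges are the corners `(d, σ d)`, named by `d`. In the state `s` (`true` means crossing,
`false` means white) two medial edges are joined at the medial vertex on the edge of `d`. -/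
def joined {m : ℕ} (σ : Equiv.Perm (Fin m × Bool)) (s : Fin m → Bool) (x y : Fin m × Bool) : Prop :=
  ∃ d : Fin m × Bool,
    (s d.1 = false ∧ x = d ∧ y = σ.symm (opp d)) ∨
    (s d.1 = true ∧ ((x = d ∧ y = opp d) ∨ (x = σ.symm d ∧ y = σ.symm (opp d))))

/-- The Penrose polynomial evaluated at `t`. -/
noncomputable def penrose {m : ℕ} (σ : Equiv.Perm (Fin m × Bool)) (t : ℤ) : ℤ :=
  ∑ s : Fin m → Bool, (-1) ^ (univ.filter (fun e => s e = true)).card * t ^ classes (joined σ s)

/-- The number of proper 3-edge-colourings. -/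
noncomputable def colourings {m : ℕ} (σ : Equiv.Perm (Fin m × Bool)) : ℕ :=
  Nat.card {c : Fin m → Fin 3 // ∀ d, d.1 ≠ (σ d).1 → c d.1 ≠ c (σ d).1}

def f (d : Fin 21 × Bool) : Fin 21 × Bool :=
  if d.2 then ![(1, true), (2, false), (5, false), (4, false), (2, true), (6, true), (9, false), (16, false), (3, true), (11, true), (9, true), (10, true), (8, false), (6, false), (11, false), (19, false), (15, true), (7, true), (19, true), (20, true), (18, true)] d.1
  else ![(3, false), (13, true), (0, true), (7, false), (8, true), (4, true), (1, false), (0, false), (10, false), (5, true), (12, true), (20, false), (14, false), (17, false), (15, false), (12, false), (17, true), (18, false), (13, false), (16, true), (14, true)] d.1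

def g (d : Fin 21 × Bool) : Fin 21 × Bool :=
  if d.2 then ![(2, false), (0, true), (4, true), (8, true), (5, false), (9, false), (5, true), (17, true), (4, false), (10, true), (11, true), (9, true), (10, false), (1, false), (20, false), (16, true), (19, false), (16, false), (20, true), (18, true), (19, true)] d.1
  else ![(7, false), (6, false), (1, true), (0, false), (3, true), (2, true), (13, true), (3, false), (12, true), (6, true), (8, false), (14, true), (15, false), (18, false), (12, false), (14, false), (7, true), (13, false), (17, false), (15, true), (11, false)] d.1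

def σ : Equiv.Perm (Fin 21 × Bool) := ⟨f, g, by decide +kernel, by decide +kernel⟩

def l (d : Fin 21 × Bool) : ℕ :=
  if d.2 then ![0, 2, 7, 5, 4, 9, 15, 29, 12, 19, 16, 18, 20, 22, 24, 36, 28, 30, 37, 41, 39] d.1
  else ![3, 23, 1, 11, 13, 6, 8, 10, 17, 14, 21, 40, 25, 31, 27, 26, 32, 34, 33, 35, 38] d.1

lemma l_inj : Function.Injective l := by
  have : ∀ a b, l a = l b → a = b := by decide +kernel
  exact this

def ds : List (Fin 21 × Bool) := List.finRange 21 ×ˢ [false, true]

lemma mem_ds : ∀ d, d ∈ ds := by decide +kernel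

lemma cls (h : Fin 21 × Bool → Fin 21 × Bool) :
    classes (fun x y => y = h x) = Pen.U 42 ((ds.map (fun d => (d, h d))).map (fun p => (l p.1, l p.2))) := by
  have := Pen.card_quot' (fun x y => y = h x) (ds.map (fun d => (d, h d))) l l_inj
    (fun x y e => Or.inl (List.mem_map.2 ⟨x, mem_ds x, by rw [e]⟩))
    (fun p hp => by
      obtain ⟨d, -, rfl⟩ := List.mem_map.1 hp
      exact Or.inl rfl)
  have e : (ds.map (fun d => (d, h d))).length = 42 := by rw [List.length_map]; rfl
  rw [e] at this
  simp only [Fintype.card_prod, Fintype.card_fin, Fintype.card_bool] at this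
  unfold classes
  omega

lemma plane : IsPlaneCubic σ := by
  refine ⟨by decide +kernel, ?_, ?_⟩
  · have := Pen.card_quot' (fun x y => y = σ x ∨ y = opp x)
      (ds.map (fun d => (d, σ d)) ++ ds.map (fun d => (d, opp d))) l l_inj
      (fun x y e => Or.inl (List.mem_append.2 (e.imp
        (fun e => List.mem_map.2 ⟨x, mem_ds x, by rw [e]⟩)
        (fun e => List.mem_map.2 ⟨x, mem_ds x, by rw [e]⟩))))
      (fun p hp => by
        rcases List.mem_append.1 hp with hp | hp
        · obtain ⟨d, -, rfl⟩ := List.mem_map.1 hp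
          exact Or.inl (Or.inl rfl)
        · obtain ⟨d, -, rfl⟩ := List.mem_map.1 hp
          exact Or.inl (Or.inr rfl))
    have e : (ds.map (fun d => (d, σ d)) ++ ds.map (fun d => (d, opp d))).length = 84 := rfl
    have e2 : Pen.U 84 ((ds.map (fun d => (d, σ d)) ++ ds.map (fun d => (d, opp d))).map
      (fun p => (l p.1, l p.2))) = 43 := by decide +kernel
    rw [e, e2] at this
    simp only [Fintype.card_prod, Fintype.card_fin, Fintype.card_bool] at this
    unfold classes
    omega
  · rw [cls (fun x => σ x), cls (fun x => σ (opp x))]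
    decide +kernel

def T0 (e : Fin 21) : (Fin 21 × Bool) × (Fin 21 × Bool) × (Fin 21 × Bool) × (Fin 21 × Bool) :=
  ((e, false), (e, true), σ.symm (e, false), σ.symm (e, true))

def T : List Pen.Tup :=
  [(3, 0, 10, 1), (23, 2, 8, 0), (1, 7, 2, 4), (11, 5, 3, 12), (13, 4, 5, 6), (6, 9, 7, 14), (8, 15, 22, 9), (10, 29, 11, 30), (17, 12, 20, 13), (14, 19, 15, 16), (21, 16, 17, 18), (40, 18, 24, 19), (25, 20, 26, 21), (31, 22, 33, 23), (27, 24, 25, 38), (26, 36, 27, 28), (32, 28, 29, 35), (34, 30, 31, 32), (33, 37, 34, 39), (35, 41, 36, 37), (38, 39, 40, 41)]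

lemma T_eq : (List.ofFn T0).map (Pen.mp l) = T := by decide +kernel

lemma curves (s : Fin 21 → Bool) :
    classes (joined σ s) = Pen.U (2 * 21) (Pen.lks T (List.ofFn s)) := by
  have := Pen.card_quot' (joined σ s) (Pen.lks (List.ofFn T0) (List.ofFn s)) l l_inj
    (by
      rintro x y ⟨⟨e, b⟩, h⟩
      rw [Pen.mem_lks, Pen.mem_lks]
      rcases h with ⟨h, rfl, rfl⟩ | ⟨h, ⟨rfl, rfl⟩ | ⟨rfl, rfl⟩⟩
      · refine Or.inl ⟨e, ?_⟩
        dsimp only at h
        cases b <;> simp [Pen.lk, h, T0, opp]
      · dsimp only at h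
        cases b
        · exact Or.inl ⟨e, by simp [Pen.lk, h, T0, opp]⟩
        · exact Or.inr ⟨e, by simp [Pen.lk, h, T0, opp]⟩
      · dsimp only at h
        cases b
        · exact Or.inl ⟨e, by simp [Pen.lk, h, T0, opp]⟩
        · exact Or.inr ⟨e, by simp [Pen.lk, h, T0, opp]⟩)
    (by
      intro p hp
      obtain ⟨e, he⟩ := (Pen.mem_lks p _ _ _).1 hp
      left
      unfold Pen.lk at he
      split_ifs at he with h
      · simp only [List.mem_cons, List.not_mem_nil, or_false] at he
        rcases he with rfl | rfl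
        · exact ⟨(e, false), Or.inr ⟨h, Or.inl ⟨rfl, rfl⟩⟩⟩
        · exact ⟨(e, false), Or.inr ⟨h, Or.inr ⟨rfl, rfl⟩⟩⟩
      · simp only [List.mem_cons, List.not_mem_nil, or_false] at he
        rcases he with rfl | rfl
        · exact ⟨(e, false), Or.inl ⟨by simpa using h, rfl, rfl⟩⟩
        · exact ⟨(e, true), Or.inl ⟨by simpa using h, rfl, rfl⟩⟩)
  rw [Pen.len_lks, ← Pen.lks_map, T_eq] at this
  simp only [Fintype.card_prod, Fintype.card_fin, Fintype.card_bool] at this
  unfold classes
  omega

lemma pen : penrose σ (-1) = -78966 := by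
  have : penrose σ (-1) = Pen.Z 21 T := by
    unfold penrose Pen.Z
    refine sum_congr rfl (fun s _ => ?_)
    rw [curves, Pen.count_ofFn]
  rw [this, Pen.Z_eq]
  decide +kernel

def adj (i j : ℕ) : Bool := ([142, 8261, 51, 401, 300, 596, 8738, 196617, 5144, 3168, 6912, 1066496, 50432, 393282, 1087488, 610304, 688256, 336000, 1712128, 1409024, 804864].getD i 0).testBit j

lemma col : colourings σ = 54 := by
  have h1 := Pen.cnt_spec 21 adj (fun _ _ => false)
  have h2 : Pen.cnt 21 adj (fun _ _ => false) = 54 := by decide +kernel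
  unfold colourings
  rw [Nat.card_eq_fintype_card, Fintype.card_subtype, ← h2, ← h1]
  refine congrArg Finset.card (Finset.ext (fun c => ?_))
  simp only [mem_filter, mem_univ, true_and]
  have a1 : ∀ i j : Fin 21, i < j → adj i j = true → ∃ d, d.1 ≠ (σ d).1 ∧
      ((d.1 = i ∧ (σ d).1 = j) ∨ (d.1 = j ∧ (σ d).1 = i)) := by decide +kernel
  have a2 : ∀ d : Fin 21 × Bool, (d.1 < (σ d).1 ∧ adj d.1 (σ d).1 = true) ∨
      ((σ d).1 < d.1 ∧ adj (σ d).1 d.1 = true) := by decide +kernel
  constructor
  · intro h
    refine ⟨fun _ => trivial, fun i j hij ha => ?_⟩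
    obtain ⟨d, h1, ⟨rfl, rfl⟩ | ⟨rfl, rfl⟩⟩ := a1 i j hij ha
    · exact h d h1
    · exact (h d h1).symm
  · rintro ⟨-, h⟩ d -
    rcases a2 d with ⟨h1, h2⟩ | ⟨h1, h2⟩
    · exact h _ _ h1 h2
    · exact (h _ _ h1 h2).symm

/-- The divisibility conjectured by Szegedy fails for a plane cubic graph with 14 vertices. -/
theorem result : ¬ ∀ (m : ℕ) (σ : Equiv.Perm (Fin m × Bool)), IsPlaneCubic σ →
    (colourings σ : ℤ) ∣ penrose σ (-1) := by
  intro h
  have := h 21 σ plane
  rw [col, pen] at this
  norm_num at this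

end Pool.Agent.Results.MP_daa8b9_co.Counter
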